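import Pool.Agent.BES.Defs

/-!
# Squad BES (MP_be01ff_an): circular sectors and the slit disc. Statements, with complete proofs.

THEOREM.  For `m ≥ 0`, `R > 0` let `Ω` be the sector of radius `R` and opening `2π/(2m+1)` (`m = 0`: the
slit disc).  There is an eigenvalue `l` with an eigenfunction symmetric about the axis, such that
`n² l`, `n ≥ 2`, has no symmetric eigenfunction.  With the final state theorem in the symmetric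
subspace (squad BEG) this gives the sharp rate for every even power.

IDEA.  The symmetric modes of the sector are `J_μ(κ r) cos(μ θ)`, `μ = (2j+1)(2m+1)/2 = L + 1/2`: Bessel
functions of half-integer order, i.e. the functions `hs L` of squad BEB, so the theorem of Hermite and
Lindemann (row ARO of squad BEO) applies.  No Bessel functions and no polar coordinates are used:
`H = Hf μ = r^μ cos(μ θ) = Re z^μ` is harmonic and homogeneous, and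
`Δ(g(|x|²) H) = (4ρ g'' + 4(1+μ) g')(ρ) H`, `ρ = |x|²`.

Rows of other squads which may be imported: `Pool.Agent.BEB.H93.cfs : CfsStmt`, `WeoStmt` and
`DnsStmt` (tables beo, be01).  `μ = mj m j`, `L = Lj m j`, `μ = L + 1/2`; `μ₀ = mj m 0 = (2m+1)/2`,
`μ₀ * al m = π/2`.
-/

namespace Pool.Agent.BES

open Set Filter Topology MeasureTheory
open scoped InnerProductSpace ENNReal
open Pool.Agent.BE01
open Pool.Agent.BEB (cf hs)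

noncomputable section

/-- GSO (medium; uses `Pool.Agent.BEB.CfsStmt`, proved: `Pool.Agent.BEB.H93.cfs`): the entire function.
Proof: general lemma: if `Summable |a k| r^k` for every `r ≥ 0` then `y ↦ ∑ a k y^k` has the derivative
`∑ (k+1) a (k+1) y^k` (`hasDerivAt_tsum_of_isPreconnected` on the ball of radius `r`, bound
`k |a k| r^(k-1) ≤ |a k| (2r+1)^k`), whose coefficients satisfy the same hypothesis; so it is smooth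
(`contDiff_infty_iff_deriv` / induction on the order).  `Summable |cf L k| |x|^(2k)` for all `x` gives
the hypothesis (`r = x²`).  ODE: the coefficient of `y^k` on the left is
`(k+1) (4k + 4L + 6) cf L (k+1) = 2(k+1)(2(k+1)+2L+1) cf L (k+1) = - cf L k`. -/
def GsoStmt : Prop := ∀ L : ℕ, ContDiff ℝ ((⊤ : ℕ∞) : WithTop ℕ∞) (gs L) ∧ gs L 0 = 1 ∧
  (∀ x : ℝ, hs L x = gs L (x ^ 2)) ∧
  ∀ y : ℝ, 4 * y * deriv (deriv (gs L)) y + (4 * (L : ℝ) + 6) * deriv (gs L) y = - gs L y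

/-- HCT (easy-medium): continuity, bound and symmetry of `Hf`.  `|Hf μ x| ≤ ‖x‖^μ`, so it is continuous
at `0`; elsewhere `x ↦ x 0/‖x‖`, `Real.arccos`, `cos` and `‖x‖^μ` are continuous.
`‖sg x‖ = ‖x‖` (`EuclideanSpace.norm_eq`, `Fin.sum_univ_two`), `sg x 0 = x 0`. -/
def HctStmt : Prop := (∀ μ : ℝ, 0 < μ → Continuous (Hf μ) ∧ ∀ x, |Hf μ x| ≤ ‖x‖ ^ μ) ∧
  (∀ x, ‖sg x‖ = ‖x‖) ∧ ∀ μ x, Hf μ (sg x) = Hf μ x

/-- HPO (easy-medium): positivity of the first mode.  Proof: `x ≠ 0` for `x ∈ Sec m R`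
(`0 * _ < 0` is false), `θ = arccos(x 0/‖x‖) < al m` (`x 0/‖x‖ > cos (al m)`, `arccos` is strictly
antitone on `[-1, 1]`, `arccos (cos α) = α` for `α ∈ [0, π]`), so `φ = μ₀ θ ∈ [0, π/2)` and `cos φ > 0`.
`mj m j θ = (2j+1) φ` and `|cos((2j+1) φ)| ≤ (2j+1) |cos φ|` (induction:
`cos((2j+3)φ) + cos((2j+1)φ)`.. or `|cos((2j+3)φ)| ≤ |cos(2φ)| |cos((2j+1)φ)| + |sin(2φ)| ≤
|cos((2j+1)φ)| + 2 |cos φ|`).  Last point: `x = 0`: `0^μ₀ = 0`; otherwise `θ = al m`, `cos (π/2) = 0`. -/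
def HpoStmt : Prop := ∀ m : ℕ, (∀ (R : ℝ) (x : En 2), x ∈ Sec m R → 0 < Hf (mj m 0) x ∧
    ∀ j : ℕ, |Hf (mj m j) x| ≤ (2 * j + 1) * ‖x‖ ^ (mj m j - mj m 0) * Hf (mj m 0) x) ∧
  ∀ x : En 2, ‖x‖ * Real.cos (al m) = x 0 → Hf (mj m 0) x = 0

/-- SDO (easy): the sector.  Open and bounded; `(R/2, 0)` is in it (`cos (al m) < 1`); for
`x ∈ Sec m R` `- ‖x‖ ≤ ‖x‖ cos (al m) < x 0`; reflection: `‖sg x‖ = ‖x‖`.  Convex combination with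
`(R/2, 0)`: optional. -/
def SdoStmt : Prop := ∀ (m : ℕ) (R : ℝ), 0 < R → Dom (Sec m R) ∧ Sec m R ⊆ Slt ∧
  ∀ x, sg x ∈ Sec m R ↔ x ∈ Sec m R

/-- HSM (medium): smoothness of `Hf` on the slit plane `Slt`, Euler identity, size of the gradient.
Proof: let `z = x 0 + i x 1` (a continuous linear map `En 2 → ℂ`, isometric).  `x ∈ Slt` iff
`z ∈ Complex.slitPlane` (if `x 1 = 0` then `‖x‖ = |x 0|`).  On `Slt` `Hf μ x = Re (z^(μ : ℂ))`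
(`Complex.cpow_def`, `exp(μ log z)`, `log z = log ‖z‖ + i arg z`, `|arg z| = arccos(z.re/‖z‖)` by
`Complex.cos_arg` and `Real.arccos_cos`, `cos` even), smooth as a composition (`Complex.contDiffAt_log`,
`ContDiffAt.cpow` or `exp ∘ (μ log)`).  `(z^μ)' = μ z^(μ-1) =: F'`, `gradient (Hf μ) x =
(Re F', - Im F')`, `⟨x, gradient⟩ = Re (z F') = μ Re z^μ`, `‖gradient‖ = |F'| = |μ| ‖z‖^(μ-1)`. -/
def HsmStmt : Prop := ∀ μ : ℝ, IsOpen Slt ∧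
  ContDiffOn ℝ ((⊤ : ℕ∞) : WithTop ℕ∞) (Hf μ) Slt ∧
  ∀ x ∈ Slt, ⟪x, gradient (Hf μ) x⟫_ℝ = μ * Hf μ x ∧ ‖gradient (Hf μ) x‖ = |μ| * ‖x‖ ^ (μ - 1)

/-- HWK (medium; uses HSM): `Hf μ` is weakly harmonic.  Proof: as in HSM, the components of the gradient
are `w 0 = Re F'`, `w 1 = - Im F'` with `F' = μ z^(μ-1)` holomorphic on the slit plane, so
`∂_0 w 0 + ∂_1 w 1 = 0` there (Cauchy-Riemann; or: `w 0 = μ Hf (μ-1)`, and symmetry of the second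
derivative).  `ψ w_i` (extended by `0`) is smooth with compact support, so `∫ ∂_i (ψ w_i) = 0`
(`integral_mul_fderiv_eq_neg_fderiv_mul_of_integrable` with a smooth cut-off function, or the version
for compact support); the sum over `i` is `∫ ⟨∇ψ, w⟩ + ∫ ψ div w`.  See `Helper22_BEH/HFG.lean`
(`dive`, `lapl`) for the technique. -/
def HwkStmt : Prop := ∀ (μ : ℝ) (Ω : Set (En 2)) (ψ : En 2 → ℝ), IsOpen Ω → Ω ⊆ Slt → Tst Ω ψ →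
  ∫ x, ⟪gradient ψ x, gradient (Hf μ) x⟫_ℝ ∂(mu Ω) = 0

/-- PWK (medium; uses HSM, HWK): `Δ(g(ρ) H) = (4ρ g'' + 4(1+μ) g')(ρ) H`, `ρ = ‖x‖²`.  Proof:
`∇(g(ρ) H) = g(ρ) ∇H + 2 g'(ρ) H x`.  HWK for the test function `ψ g(ρ)`:
`∫ g ⟨∇ψ, ∇H⟩ = - ∫ ψ 2 g' ⟨x, ∇H⟩ = - 2 μ ∫ ψ g' H` (Euler).  Divergence theorem for the field
`ψ f x`, `f = 2 g'(ρ) H` (compact support in `Ω`): `∫ ⟨∇ψ, f x⟩ = - ∫ ψ (2 f + ⟨∇f, x⟩)` and
`⟨∇f, x⟩ = 4 ρ g'' H + 2 μ g' H`.  Sum: `2μ g' + 4 g' + 4ρ g'' + 2μ g' = 4ρ g'' + 4(1+μ) g'`. -/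
def PwkStmt : Prop := ∀ (μ : ℝ) (g : ℝ → ℝ) (Ω : Set (En 2)) (ψ : En 2 → ℝ),
  ContDiff ℝ ((⊤ : ℕ∞) : WithTop ℕ∞) g → IsOpen Ω → Ω ⊆ Slt → Tst Ω ψ →
  ∫ x, ⟪gradient ψ x, gradient (fun y => g (‖y‖ ^ 2) * Hf μ y) x⟫_ℝ ∂(mu Ω) =
    - ∫ x, ψ x * (Lg μ 0 g (‖x‖ ^ 2) * Hf μ x) ∂(mu Ω)

/-- GCF (medium): a general criterion for `H^1_0`.  Proof: `χ` smooth, `0` on `(-∞, 1]`, `1` on `[2, ∞)`,
`0 ≤ χ ≤ 1`, `|χ'| ≤ c` (`Real.smoothTransition (x - 1)`).  `v_n = χ(n δ) v` on `Ω`, `0` outside: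
support in the compact subset `{n δ ≥ 1}` of `Ω`, smooth, so a test function.
`∇v_n = χ(n δ) ∇v + n χ'(n δ) v ∇δ` in `Ω`, `‖∇v_n - ∇v‖ ≤ 1_{n δ ≤ 2} (‖∇v‖ + 2 c |C| ‖∇δ‖)` and
`|v_n - v| ≤ 1_{n δ ≤ 2} |v|`: both tend to `0` in `L²` (dominated convergence: `n δ x → ∞`). -/
def GcfStmt : Prop := ∀ (d : ℕ) (Ω : Set (En d)) (δ v : En d → ℝ) (C : ℝ), Dom Ω →
  ContDiffOn ℝ ((⊤ : ℕ∞) : WithTop ℕ∞) δ Ω → ContDiffOn ℝ ((⊤ : ℕ∞) : WithTop ℕ∞) v Ω →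
  (∀ x ∈ Ω, 0 < δ x) → (∀ ε : ℝ, 0 < ε → IsCompact {x | x ∈ Ω ∧ ε ≤ δ x}) →
  (∀ x ∈ Ω, |v x| ≤ C * δ x) → MemLp v 2 (mu Ω) → MemLp (gradient δ) 2 (mu Ω) →
  MemLp (gradient v) 2 (mu Ω) →
  ∃ (f : Lp ℝ 2 (mu Ω)) (G : Lp (En d) 2 (mu Ω)), (f, G) ∈ H10 Ω ∧ f =ᵐ[mu Ω] v ∧
    G =ᵐ[mu Ω] gradient v

/-- NRI (easy-medium): `‖x‖^(μ-1)` is square integrable near the origin of the plane for `μ > 0`.
`integrable_fun_norm_addHaar` (or RAI): `∫_0^R r^(2μ-2) r dr < ∞`. -/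
def NriStmt : Prop := ∀ μ R : ℝ, 0 < μ →
  MemLp (fun x : En 2 => ‖x‖ ^ (μ - 1)) 2 (mu (Metric.ball (0 : En 2) R))

/-- SCO (medium; uses HCT, HPO, SDO, HSM, GCF, NRI): the functions `g(ρ) H`, `g(R²) = 0`, are in
`H^1_0` of the sector, `H = Hf (mj m j)`.  Proof: GCF with `δ = (R² - ρ) Hf (mj m 0)`.  Smooth on
`Sec m R ⊆ Slt`.  `{x ∈ Sec m R, ε ≤ δ x}` is the closed bounded set
`{‖x‖ ≤ R, ‖x‖ cos (al m) ≤ x 0, ε ≤ δ x}`: on `‖x‖ = R` and on the rays `δ = 0` (HPO), `Hf` is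
continuous (HCT).  `|g(ρ)| ≤ C (R² - ρ)` on `[0, R²]` (mean value theorem) and HPO (`‖x‖ ≤ R`, exponent
`≥ 0`): `|v| ≤ C' δ`.  `∇(g(ρ) H) = g(ρ) ∇H + 2 g'(ρ) H x`, of norm at most
`C (‖x‖^(μ-1) + 1)` on the sector (HSM): square integrable by NRI; the same for `δ`. -/
def ScoStmt : Prop := ∀ (m j : ℕ) (R : ℝ) (g : ℝ → ℝ), 0 < R →
  ContDiff ℝ ((⊤ : ℕ∞) : WithTop ℕ∞) g → g (R ^ 2) = 0 →
  MemLp (gradient (fun y => g (‖y‖ ^ 2) * Hf (mj m j) y)) 2 (mu (Sec m R)) ∧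
  ∃ (f : Lp ℝ 2 (mu (Sec m R))) (G : Lp (En 2) 2 (mu (Sec m R))), (f, G) ∈ H10 (Sec m R) ∧
    f =ᵐ[mu (Sec m R)] (fun x => g (‖x‖ ^ 2) * Hf (mj m j) x) ∧
    G =ᵐ[mu (Sec m R)] gradient (fun y => g (‖y‖ ^ 2) * Hf (mj m j) y)

/-- ORS (easy-medium; uses HCT, SDO, PWK, SCO, `Pool.Agent.BEO.WeoStmt`): an eigenfunction is orthogonal
to `(Δ + l)(g(ρ) H)`.  Proof: `v = g(ρ) H`, `(f, G') ∈ H10` from SCO; `u`, `G` from `IsEig`.  WEO (with `l u`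
in place of `f`): `∫ ⟨G, G'⟩ = l ∫ u v`.  By PWK and density (`(u, G) ∈ H10` is a limit of test pairs
`(ψ, ∇ψ)`, both sides are continuous in `L² × L²`: `∇v ∈ L²`, the factor on the right is bounded)
`∫ ⟨G, ∇v⟩ = - ∫ u Lg μ 0 g (ρ) H`.  `Lg μ l g = Lg μ 0 g + l g`. -/
def OrsStmt : Prop := ∀ (m j : ℕ) (R l : ℝ) (g : ℝ → ℝ) (u : Lp ℝ 2 (mu (Sec m R))), 0 < R →
  ContDiff ℝ ((⊤ : ℕ∞) : WithTop ℕ∞) g → g (R ^ 2) = 0 → IsEig (Sec m R) l u →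
  ∫ x, u x * (Lg (mj m j) l g (‖x‖ ^ 2) * Hf (mj m j) x) ∂(mu (Sec m R)) = 0

/-- RCS (easy-medium; uses GSO, ORS): moments.  Proof: `g₁(t) = gs L (l t)`, `L = Lj m j`, satisfies
`Lg μ l g₁ = 0` (chain rule, GSO, `4(1+μ) = 4L+6`).  For every `b` there is a polynomial `w_b` with
`Lg μ l w_b t = t^b`: `w_0 = 1/l`, `w_b = (t^b - 4b(b+μ) w_(b-1))/l`.  `g = w_b - (w_b(R²)/g₁(R²)) g₁` in
ORS. -/
def RcsStmt : Prop := ∀ (m j : ℕ) (R l : ℝ) (u : Lp ℝ 2 (mu (Sec m R))), 0 < R → 0 < l →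
  IsEig (Sec m R) l u → gs (Lj m j) (l * R ^ 2) ≠ 0 →
  ∀ b : ℕ, ∫ x, u x * ((‖x‖ ^ 2) ^ b * Hf (mj m j) x) ∂(mu (Sec m R)) = 0

/-- DNS (medium-strong; uses HCT, HPO, SDO and, imported, `Pool.Agent.BE01.H94.dns` or density of
`C_c(Ω)`): completeness.  Proof: `θ = arccos(x 0/‖x‖)`, `φ = μ₀ θ ∈ [0, π/2)` on `Sec m R`,
`T = cos² φ ∈ (0, 1]`, `ρ = ‖x‖²`.  `cos((2j+1)φ) = cos φ p_j(T)`, `p_j` a polynomial of degree `j`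
(`p_0 = 1`, `p_1 = 4T - 3`, `p_(j+1) = (4T - 2) p_j - p_(j-1)`).  (1) Weierstrass in `ρ`: for continuous `f` on
`[0, R²]`: `∫ u f(ρ) H_j = 0`, `H_j = ρ^(mj m j/2) cos φ p_j(T)`.  (2) for continuous `f` which vanish
near `0` (replace `f` by `ρ^(-mj m j/2) f`): `∫ u f(ρ) cos φ p_j(T) = 0` for all `j`, so, the `p_j` being
a basis of the polynomials, `∫ u f(ρ) cos φ T^b = 0` for all `b`.  (3) Let `F` be continuous with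
compact support in `Ω = Sec m R` and `F (sg x) = F x`; `F~ = F/cos φ` on `Ω`, `0` outside, is continuous
(`cos φ = Hf μ₀/‖x‖^μ₀ > 0` on `Ω`).  `Φ(ρ, T) = F~(√ρ cos θ, √ρ sin θ)`, `θ = arccos(√T)/μ₀`, is continuous on
`[0, R²] × [0, 1]` and `F~ x = Φ(ρ x, T x)` (`(√ρ cos θ, √ρ sin θ) = (x 0, |x 1|)`).  Stone-Weierstrass:
`Φ ≈ P(ρ, T)` uniformly, `F ≈ f_c(ρ) P(ρ, T) cos φ`, `f_c` a cut-off which vanishes near `0` and is `1` on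
the support of `F`; so `∫ u F = 0` by (2).  (4) For `F` not symmetric:
`∫ u F = ∫ u (F + F ∘ sg)/2` (`u` symmetric, `sg` preserves `mu Ω`).  So `∫ u F = 0` for all test
functions and `u = 0`. -/
def DnsStmt : Prop := ∀ (m : ℕ) (R : ℝ) (u : Lp ℝ 2 (mu (Sec m R))), 0 < R → Sy u →
  (∀ b j : ℕ, ∫ x, u x * ((‖x‖ ^ 2) ^ b * Hf (mj m j) x) ∂(mu (Sec m R)) = 0) → u = 0

/-- SPS (easy; uses GSO, RCS, DNS): no symmetric eigenfunction.  `l = (x/R)²`, `l R² = x²`. -/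
def SpsStmt : Prop := ∀ (m : ℕ) (R x : ℝ), 0 < R → 0 < x → (∀ j : ℕ, hs (Lj m j) x ≠ 0) →
  ∀ u : Lp ℝ 2 (mu (Sec m R)), IsEig (Sec m R) ((x / R) ^ 2) u → Sy u → u = 0

/-- PHS (easy-medium; uses GSO, HCT, SDO, PWK, SCO): the eigenfunction.  Proof: `g(t) = gs L ((x/R)² t)`,
`L = Lj m j`, `g(R²) = hs L x = 0`; `φ` of SCO.  PWK and the ODE (`4(1+μ) = 4L + 6`):
`∫ ⟨∇φ, ∇ψ⟩ = (x/R)² ∫ φ ψ`.  `φ ≠ 0`: it is continuous and positive at the points `(t, 0)`, `t > 0`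
small (`gs L 0 = 1`, `Hf μ (t, 0) = t^μ`).  Symmetric: HCT, and `sg` preserves null sets of the sector
(`sg` is a linear isometry). -/
def PhsStmt : Prop := ∀ (m j : ℕ) (R x : ℝ), 0 < R → 0 < x → hs (Lj m j) x = 0 →
  ∃ φ : Lp ℝ 2 (mu (Sec m R)), φ ≠ 0 ∧ IsEig (Sec m R) ((x / R) ^ 2) φ ∧ Sy φ

/-- SEF (easy; uses `Pool.Agent.BEO.AroStmt`, SPS, PHS): conclusion.  `m ≥ 1`: `j = 0`, `L = m ≥ 1`.
`m = 0`: `j = 1`, `L = 1`.  ARO gives `x0`; `l = (x0/R)²`, `n² l = (n x0/R)²`. -/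
def SefStmt : Prop := ∀ (m : ℕ) (R : ℝ), 0 < R →
  ∃ (l : ℝ) (φ : Lp ℝ 2 (mu (Sec m R))), φ ≠ 0 ∧ IsEig (Sec m R) l φ ∧ Sy φ ∧
    ∀ n : ℕ, 2 ≤ n → ∀ u : Lp ℝ 2 (mu (Sec m R)), IsEig (Sec m R) ((n : ℝ) ^ 2 * l) u → Sy u →
      u = 0

end

end Pool.Agent.BES
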