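import Pool.Agent.BEO.Stmts

/-!
# Squad BES (MP_be01ff_an): circular sectors of opening `2π/(2m+1)`, and the slit disc. Definitions.
-/

namespace Pool.Agent.BES

open Set Filter Topology MeasureTheory
open scoped InnerProductSpace ENNReal
open Pool.Agent.BE01
open Pool.Agent.BEB (cf hs)

noncomputable section

/-- Half of the opening: `π/(2m+1)`. -/
def al (m : ℕ) : ℝ := Real.pi / (2 * m + 1)

/-- The sector `0 < |x| < R`, `|θ| < π/(2m+1)` (for `m = 0` the disc without the radius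
`x₀ ≤ 0`, `x₁ = 0`). -/
def Sec (m : ℕ) (R : ℝ) : Set (En 2) := {x | ‖x‖ < R ∧ ‖x‖ * Real.cos (al m) < x 0}

/-- The plane without the half line `x₀ ≤ 0`, `x₁ = 0`. -/
def Slt : Set (En 2) := {x | - ‖x‖ < x 0}

/-- The function `r^μ cos(μ θ)`. -/
def Hf (μ : ℝ) (x : En 2) : ℝ := ‖x‖ ^ μ * Real.cos (μ * Real.arccos (x 0 / ‖x‖))

/-- The exponents `(2j+1)(2m+1)/2` of the modes symmetric about the axis. -/
def mj (m j : ℕ) : ℝ := (2 * j + 1) * (2 * m + 1) / 2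

/-- `mj m j = Lj m j + 1/2`. -/
def Lj (m j : ℕ) : ℕ := 2 * j * m + j + m

/-- The entire functions with `hs L x = gs L (x²)`. -/
def gs (L : ℕ) (y : ℝ) : ℝ := ∑' k : ℕ, cf L k * y ^ k

/-- The reflection in the axis. -/
def sg (x : En 2) : En 2 := WithLp.toLp 2 ![x 0, - x 1]

/-- `u` is symmetric about the axis. -/
def Sy {Ω : Set (En 2)} (u : Lp ℝ 2 (mu Ω)) : Prop := (fun x => u (sg x)) =ᵐ[mu Ω] u

/-- The profile of `(Δ + l) (g(|x|²) Hf μ)`. -/
def Lg (μ l : ℝ) (g : ℝ → ℝ) (t : ℝ) : ℝ :=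
  4 * t * deriv (deriv g) t + 4 * (1 + μ) * deriv g t + l * g t

end

end Pool.Agent.BES
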